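import Pool.Agent.Work.MP_408f4b_gt.A2.All

/-!
# The first Steklov eigenvalue of the `U(3)`-invariant free boundary minimal hypersurfaces

Every compact connected embedded free boundary minimal hypersurface of the unit ball of the space
of the Hermitian `3 × 3` matrices of trace zero over `ℝ`, `ℂ` or `ℍ` which is invariant under `U(3)`
(acting by conjugation) has first Steklov eigenvalue one. These spaces, of dimension 5, 8 and 14,
are the classical irreducible representations of cohomogeneity two whose Weyl group is the symmetric
group `S₃`; they complement the theorems on `O(p) × O(q)` and on `U(2) × U(k)`.

Outline of the proof. On each orbit (a flag manifold) a function is decomposed according to the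
action of `S₃`. The part of standard type is estimated by the positive solution of the cooperative
system which belongs to the linear functions, in a rotated frame of the plane of the eigenvalues;
the antisymmetric part by the supersolution `x - z`; the symmetric part of mean zero by the
supersolution `r`, for which one needs a sharp enough inequality for symmetric functions on the
flag manifold: Poincaré inequalities on the spheres in the orbits, a path argument for the
averaging operator over orthogonal lines, and Cauchy-Schwarz. For the functions which are constant
on the orbits one shows that the profile curve meets the minimal cone at most once, and that
`|Q|^(1/3)` is a supersolution, where `Q` is the cubic form which vanishes on the cone.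
-/

set_option autoImplicit false

namespace Pool.Agent.Results.MP_408f4b_gt.HermitianInvariant

open Pool.Agent.Work.MP_408f4b_gt.A2 Quaternion

/-- **Main theorem.** -/
theorem result : SteklovOne ℝ ∧ SteklovOne ℂ ∧ SteklovOne ℍ[ℝ] :=
  ⟨stek_all ℝ, stek_all ℂ, stek_all ℍ[ℝ]⟩

end Pool.Agent.Results.MP_408f4b_gt.HermitianInvariant
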