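import Pool.Agent.Work.MP_408f4b_gt.I.Pot
import Pool.Agent.Work.MP_408f4b_gt.I.KK
import Pool.Agent.Work.MP_408f4b_gt.I.SS
import Pool.Agent.Work.MP_408f4b_gt.I.Str
import Pool.Agent.Work.MP_408f4b_gt.I.Low
import Pool.Agent.Work.MP_408f4b_gt.I.Arms
import Pool.Agent.Work.MP_408f4b_gt.I.Eqn
import Pool.Agent.Work.MP_408f4b_gt.I.Arm
import Pool.Agent.Work.MP_408f4b_gt.I.Near
import Pool.Agent.Work.MP_408f4b_gt.I.Sym
import Pool.Agent.Work.MP_408f4b_gt.I.Cross0
import Pool.Agent.Work.MP_408f4b_gt.I.Cross
import Pool.Agent.Work.MP_408f4b_gt.I.Super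
import Pool.Agent.Work.MP_408f4b_gt.I.Inv
import Pool.Agent.Work.MP_408f4b_gt.I.InvF
import Pool.Agent.Work.MP_408f4b_gt.I.Sec
import Pool.Agent.Work.MP_408f4b_gt.I.G1
import Pool.Agent.Work.MP_408f4b_gt.I.Upd
import Pool.Agent.Work.MP_408f4b_gt.I.ES
import Pool.Agent.Work.MP_408f4b_gt.I.Polar
import Pool.Agent.Work.MP_408f4b_gt.I.GP
import Pool.Agent.Work.MP_408f4b_gt.I.Poin
import Pool.Agent.Work.MP_408f4b_gt.I.Pt
import Pool.Agent.Work.MP_408f4b_gt.I.Sph
import Pool.Agent.Work.MP_408f4b_gt.I.Var
import Pool.Agent.Work.MP_408f4b_gt.I.Main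
import Pool.Agent.Work.MP_408f4b_gt.I.PC
import Pool.Agent.Work.MP_408f4b_gt.I.Two
import Pool.Agent.Work.MP_408f4b_gt.I.One
import Pool.Agent.Work.MP_408f4b_gt.I.Mom
import Pool.Agent.Work.MP_408f4b_gt.I.Coord
import Pool.Agent.Work.MP_408f4b_gt.I.Thm

set_option autoImplicit false

/-!
# First Steklov eigenvalue of embedded `O(p) × O(q)`-invariant free boundary minimal hypersurfaces

For all `p, q ≥ 2` every compact connected embedded free boundary minimal hypersurface of the unit
ball of `ℝ^p × ℝ^q` which is invariant under `O(p) × O(q)` has first nonzero Steklov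
eigenvalue `1`.
-/

namespace Pool.Agent.Results.MP_408f4b_gt.InvariantEmbedded

open Pool.Agent.Work.MP_408f4b_gt

/-- For every `O(p) × O(q)`-invariant embedded free boundary minimal hypersurface of the unit ball
(given by its profile curve `P`) the least Rayleigh quotient of the Steklov problem is `1`. -/
theorem result : ∀ p q : ℕ, 2 ≤ p → 2 ≤ q → ∀ P : Profile p q, IsLeast P.rayleigh 1 := by
  have hPot : claimPot := prfPot
  have hKK : claimKK := prfKK
  have hSS : claimSS := prfSS hPot
  have hStr : claimStr := prfStr hPot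
  have hLow : claimLow := prfLow hPot hSS
  have hArms : claimArms := prfArms hPot hStr hLow
  have hEqn : claimEqn := prfEqn
  have hArm : claimArm := prfArm hEqn
  have hNear : claimNear := prfNear hEqn
  have hSym : claimSym := prfSym
  have hCross0 : claimCross0 := prfCross0 hKK hEqn hArm hArms
  have hCross : claimCross := prfCross hNear hSym hCross0
  have hSuper : claimSuper := prfSuper hEqn
  have hInv : claimInv := prfInv hCross hSuper hSym
  have hInvF : claimInvF := prfInvF hInv
  have hSec : claimSec := prfSec hEqn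
  have hG1 : claimG1 := prfG1
  have hUpd : claimUpd := prfUpd
  have hES : claimES := prfES
  have hPolar : claimPolar := prfPolar
  have hGP : claimGP := prfGP hG1 hUpd hES
  have hPoin : claimPoin := prfPoin hGP hPolar
  have hPt : claimPt := prfPt
  have hSph : claimSph := prfSph hPoin
  have hVar : claimVar := prfVar
  have hMain : claimMain := prfMain hSym hSec hPt hSph hVar
  have hPC : claimPC := prfPC
  have hTwo : claimTwo := prfTwo hMain hInvF hPC hPt
  have hOne : claimOne := prfOne hMain hPC hPt
  have hMom : claimMom := prfMom hPolar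
  have hCoord : claimCoord := prfCoord hEqn hPC hMom
  have hThm : claimThm := prfThm hTwo hOne hCoord hInv hPC
  intro p q hp hq P
  exact (hThm p q hp hq P).1

end Pool.Agent.Results.MP_408f4b_gt.InvariantEmbedded
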