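import Pool.Agent.Work.MP_408f4b_gt.Q.All

/-!
# The first Steklov eigenvalue of the `U(2) × U(k)`-invariant free boundary minimal hypersurfaces

Every compact connected embedded free boundary minimal hypersurface of the unit ball of the space
of the `2 × k` matrices over `ℝ`, `ℂ` or `ℍ` which is invariant under `U(2) × U(k)` (unitary groups
over the same field) has first Steklov eigenvalue one. These are all the infinite families of
irreducible representations of cohomogeneity two.

Outline of the proof. A function `f` on the hypersurface is decomposed, on each orbit, according to
the parity in the singular vectors. The odd part is estimated by the positive solution `(x, y)` of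
the cooperative system which belongs to the linear functions (Picone identity); for this one uses
the sharp Poincaré inequality on the spheres of singular vectors and an inequality on circles of
rotations which mix the two singular vectors. In the even part one uses the spectral gap of the even
functions on spheres (proved through Gauss measure and the discrete cube) and the supersolutions
`y`, `r`, `x - y`. For the functions which are constant on the orbits one shows that the profile
curve crosses the minimal cone at most once, and that `|Q|^(1/4)` is a supersolution, where `Q` is
the quartic form which vanishes on the cone.
-/

set_option autoImplicit false

namespace Pool.Agent.Results.MP_408f4b_gt.MatrixInvariant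

open Pool.Agent.Work.MP_408f4b_gt.Q Quaternion

/-- **Main theorem.** -/
theorem result : (∀ k, SteklovOne ℝ k) ∧ (∀ k, SteklovOne ℂ k) ∧ ∀ k, SteklovOne ℍ[ℝ] k :=
  ⟨stek_all ℝ, stek_all ℂ, stek_all ℍ[ℝ]⟩

end Pool.Agent.Results.MP_408f4b_gt.MatrixInvariant
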